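import Mathlib
import Pool.Agent.Helper859.Br.C1

/-!
# The circle-rooted parameter set can have arbitrarily many components
-/

open Polynomial Filter Topology Metric

namespace Pool.Agent.Results.MP_9de7c4_an.ManyComponents

/-- `p` is a trim self-inversive polynomial of darga `n`: `p ≠ 0`, the sum of its lowest and highest
exponents is `n`, `p_j = conj p_{n-j}`, and `p(0) = 0`. -/
def TrimSelfInversive (n : ℕ) (p : ℂ[X]) : Prop :=
  p ≠ 0 ∧ p.natTrailingDegree + p.natDegree = n ∧
    (∀ j ≤ n, p.coeff j = (starRingEnd ℂ) (p.coeff (n - j))) ∧ p.coeff 0 = 0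

/-- The polynomial `p_α = α (x ^ n + 1) + p`. -/
noncomputable def pAlpha (n : ℕ) (p : ℂ[X]) (α : ℝ) : ℂ[X] := C (α : ℂ) * (X ^ n + 1) + p

/-- The set `S(p)` of all `α > 0` for which `p_α` is circle rooted. -/
def S (n : ℕ) (p : ℂ[X]) : Set ℝ :=
  {α : ℝ | 0 < α ∧ ∀ z : ℂ, (pAlpha n p α).eval z = 0 → ‖z‖ = 1}

/-! ### the polynomial attached to `q` -/

/-- `∑ (q_k x^(n-k) + conj q_k x^k)` -/
noncomputable def pq (n : ℕ) (q : ℂ[X]) : ℂ[X] :=
  ∑ k ∈ Finset.range (q.natDegree + 1),
    (C (q.coeff k) * X ^ (n - k) + C ((starRingEnd ℂ) (q.coeff k)) * X ^ k)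

lemma coeff_pq {n : ℕ} {q : ℂ[X]} (hn : q.natDegree < n) {j : ℕ} (hj : j ≤ n) :
    (pq n q).coeff j = q.coeff (n - j) + (starRingEnd ℂ) (q.coeff j) := by
  unfold pq
  rw [finsetSum_coeff]
  simp only [coeff_add, coeff_C_mul, coeff_X_pow, Finset.sum_add_distrib, mul_ite, mul_one,
    mul_zero]
  congr 1
  · by_cases h : n - j ≤ q.natDegree
    · rw [Finset.sum_eq_single (n - j)]
      · rw [if_pos (by omega)]
      · intro k hk hkn
        have := Finset.mem_range.mp hk
        rw [if_neg (by omega)]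
      · intro h1
        exact absurd (Finset.mem_range.mpr (by omega)) h1
    · rw [coeff_eq_zero_of_natDegree_lt (by omega)]
      refine Finset.sum_eq_zero fun k hk => ?_
      have := Finset.mem_range.mp hk
      rw [if_neg (by omega)]
  · by_cases h : j ≤ q.natDegree
    · rw [Finset.sum_eq_single j]
      · rw [if_pos rfl]
      · intro k _ hkn
        rw [if_neg (Ne.symm hkn)]
      · intro h1
        exact absurd (Finset.mem_range.mpr (by omega)) h1
    · rw [coeff_eq_zero_of_natDegree_lt (by omega), map_zero]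
      refine Finset.sum_eq_zero fun k hk => ?_
      have := Finset.mem_range.mp hk
      rw [if_neg (by omega)]

lemma natDegree_pq {n : ℕ} {q : ℂ[X]} (hn : q.natDegree < n) : (pq n q).natDegree ≤ n := by
  unfold pq
  refine natDegree_sum_le_of_forall_le _ _ fun k hk => ?_
  have := Finset.mem_range.mp hk
  refine (natDegree_add_le _ _).trans (max_le ?_ ?_)
  · exact (natDegree_C_mul_X_pow_le _ _).trans (Nat.sub_le _ _)
  · exact (natDegree_C_mul_X_pow_le _ _).trans (by omega)

lemma trim_pq {n : ℕ} {q : ℂ[X]} (hn : 2 * q.natDegree < n) (hq : q ≠ 0) (hq0 : q.coeff 0 = 0) :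
    TrimSelfInversive n (pq n q) := by
  have hn' : q.natDegree < n := by omega
  have hsym : ∀ j ≤ n, (pq n q).coeff j = (starRingEnd ℂ) ((pq n q).coeff (n - j)) := by
    intro j hj
    rw [coeff_pq hn' hj, coeff_pq hn' (Nat.sub_le n j), map_add, Complex.conj_conj]
    have : n - (n - j) = j := by omega
    rw [this]
    ring
  have hne : pq n q ≠ 0 := by
    intro h
    have h1 := coeff_pq hn' hn'.le
    rw [h, coeff_zero, coeff_eq_zero_of_natDegree_lt (by omega : q.natDegree < n - q.natDegree),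
      zero_add] at h1
    have h2 : q.leadingCoeff = 0 := by
      have := congrArg (starRingEnd ℂ) h1
      rw [map_zero, Complex.conj_conj] at this
      exact this.symm
    exact hq (leadingCoeff_eq_zero.mp h2)
  refine ⟨hne, ?_, hsym, ?_⟩
  · have hd := natDegree_pq hn'
    have h1 : (pq n q).coeff (n - (pq n q).natDegree) ≠ 0 := by
      intro h
      have h2 := hsym _ hd
      rw [h, map_zero] at h2
      exact hne (leadingCoeff_eq_zero.mp h2)
    have h3 : (pq n q).natTrailingDegree ≤ n - (pq n q).natDegree :=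
      natTrailingDegree_le_of_ne_zero h1
    have h4 : (pq n q).coeff (n - (pq n q).natTrailingDegree) ≠ 0 := by
      intro h
      have h5 : (pq n q).natTrailingDegree ≤ n := by omega
      have h2 := hsym _ h5
      rw [h, map_zero] at h2
      exact hne (trailingCoeff_eq_zero.mp h2)
    have h6 := le_natDegree_of_ne_zero h4
    omega
  · rw [coeff_pq hn' (Nat.zero_le n), hq0, map_zero, add_zero]
    apply coeff_eq_zero_of_natDegree_lt
    omega

/-- the value of `conj (h (conj x))` -/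
noncomputable def barEval (h : ℂ[X]) (x : ℂ) : ℂ :=
  (starRingEnd ℂ) (h.eval ((starRingEnd ℂ) x))

lemma barEval_eq_sum (h : ℂ[X]) (x : ℂ) :
    barEval h x = ∑ k ∈ Finset.range (h.natDegree + 1), (starRingEnd ℂ) (h.coeff k) * x ^ k := by
  unfold barEval
  rw [eval_eq_sum_range, map_sum]
  simp

lemma pAlpha_eval {n : ℕ} {q : ℂ[X]} (hn : q.natDegree < n) (α : ℝ) {x : ℂ} (hx : x ≠ 0) :
    (pAlpha n (pq n q) α).eval x = x ^ n * (C (α : ℂ) + q).eval (1 / x)
      + barEval (C (α : ℂ) + q) x := by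
  have h1 : (pq n q).eval x = x ^ n * q.eval (1 / x) + barEval q x := by
    rw [barEval_eq_sum]
    unfold pq
    rw [eval_finsetSum, eval_eq_sum_range, Finset.mul_sum, ← Finset.sum_add_distrib]
    refine Finset.sum_congr rfl fun k hk => ?_
    have hk' := Finset.mem_range.mp hk
    simp only [eval_add, eval_mul, eval_C, eval_pow, eval_X]
    have h2 : x ^ n * (q.coeff k * (1 / x) ^ k) = q.coeff k * x ^ (n - k) := by
      have h3 : x ^ n = x ^ (n - k) * x ^ k := by rw [← pow_add]; congr 1; omega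
      rw [h3, one_div, inv_pow]
      field_simp
    rw [h2]
  have h2 : barEval (C (α : ℂ) + q) x = α + barEval q x := by
    simp [barEval]
  unfold pAlpha
  rw [h2]
  simp only [eval_add, eval_mul, eval_C, eval_pow, eval_X, eval_one, h1]
  ring

/-- product comparison -/
lemma prod_compare (s : Multiset ℂ) (hs : ∀ ρ ∈ s, 1 < ‖ρ‖) {x : ℂ} (hx : ‖x‖ < 1) :
    ‖(s.map fun ρ => 1 - ρ * x).prod‖ ≤ ‖(s.map fun ρ => x - (starRingEnd ℂ) ρ).prod‖ := by
  induction s using Multiset.induction_on with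
  | empty => simp
  | cons ρ s ih =>
    simp only [Multiset.map_cons, Multiset.prod_cons, norm_mul]
    have h1 := hs ρ (Multiset.mem_cons_self ρ s)
    have h2 := ih fun b hb => hs b (Multiset.mem_cons_of_mem hb)
    refine mul_le_mul ?_ h2 (norm_nonneg _) (norm_nonneg _)
    rw [← sq_le_sq₀ (norm_nonneg _) (norm_nonneg _), Complex.sq_norm, Complex.sq_norm]
    have e : Complex.normSq (x - (starRingEnd ℂ) ρ) - Complex.normSq (1 - ρ * x)
        = (1 - Complex.normSq x) * (Complex.normSq ρ - 1) := by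
      simp only [Complex.normSq_apply, Complex.sub_re, Complex.sub_im, Complex.mul_re,
        Complex.mul_im, Complex.conj_re, Complex.conj_im, Complex.one_re, Complex.one_im]
      ring
    have h3 : Complex.normSq x < 1 := by
      rw [Complex.normSq_eq_norm_sq]
      nlinarith [norm_nonneg x]
    have h4 : 1 < Complex.normSq ρ := by
      rw [Complex.normSq_eq_norm_sq]
      nlinarith [norm_nonneg ρ]
    nlinarith

/-- no zeros in the open disc -/
lemma no_zero_inside {n : ℕ} {h : ℂ[X]} (hn : h.natDegree < n)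
    (hfree : ∀ u : ℂ, ‖u‖ ≤ 1 → h.eval u ≠ 0) {x : ℂ} (hx0 : x ≠ 0) (hx : ‖x‖ < 1) :
    x ^ n * h.eval (1 / x) + barEval h x ≠ 0 := by
  have hs : h.Splits := IsAlgClosed.splits h
  have hfac := hs.eq_prod_roots
  have hcard := hs.natDegree_eq_card_roots
  have hlc : h.leadingCoeff ≠ 0 := by
    intro h0
    rw [leadingCoeff_eq_zero] at h0
    exact hfree 0 (by simp) (by rw [h0]; simp)
  have hroots : ∀ ρ ∈ h.roots, 1 < ‖ρ‖ := by
    intro ρ hρ
    by_contra hle
    exact hfree ρ (not_lt.mp hle) (mem_roots'.mp hρ).2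
  have h1 : x ^ n * h.eval (1 / x) = x ^ (n - h.natDegree) * (h.leadingCoeff
      * (h.roots.map fun ρ => 1 - ρ * x).prod) := by
    conv_lhs => rw [hfac]
    rw [eval_mul, eval_C, eval_multiset_prod, Multiset.map_map]
    have h2 : x ^ n = x ^ (n - h.natDegree) * x ^ h.natDegree := by
      rw [← pow_add]; congr 1; omega
    have h3 : ∀ s : Multiset ℂ, x ^ (Multiset.card s)
        * (s.map ((fun p : ℂ[X] => p.eval (1 / x)) ∘ fun a => X - C a)).prod
        = (s.map fun ρ => 1 - ρ * x).prod := by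
      intro s
      induction s using Multiset.induction_on with
      | empty => simp
      | cons a s ih =>
        simp only [Multiset.map_cons, Multiset.prod_cons, Multiset.card_cons, Function.comp_apply,
          eval_sub, eval_X, eval_C] at ih ⊢
        rw [← ih, pow_succ]
        field_simp
    have h4 := h3 h.roots
    rw [← hcard] at h4
    rw [h2, ← h4]
    ring
  have h2 : barEval h x = (starRingEnd ℂ) h.leadingCoeff
      * (h.roots.map fun ρ => x - (starRingEnd ℂ) ρ).prod := by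
    unfold barEval
    conv_lhs => rw [hfac]
    rw [eval_mul, eval_C, map_mul, eval_multiset_prod, Multiset.map_map, map_multiset_prod,
      Multiset.map_map]
    congr 2
    apply Multiset.map_congr rfl
    intro ρ _
    simp
  intro h0
  have h3 : barEval h x = -(x ^ n * h.eval (1 / x)) := by linear_combination h0
  have h4 := congrArg norm h3
  rw [norm_neg, h1, h2, norm_mul, norm_mul, norm_mul, RCLike.norm_conj, norm_pow] at h4
  have h5 := prod_compare h.roots hroots hx
  have h6 : 0 < ‖(h.roots.map fun ρ => x - (starRingEnd ℂ) ρ).prod‖ := by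
    rw [norm_pos_iff]
    intro hz
    rw [Multiset.prod_eq_zero_iff] at hz
    obtain ⟨ρ, hρ, hρ0⟩ := Multiset.mem_map.mp hz
    have h7 := hroots ρ hρ
    rw [sub_eq_zero.mp hρ0, RCLike.norm_conj] at hx
    linarith
  have h7 : 0 < ‖h.leadingCoeff‖ := norm_pos_iff.mpr hlc
  have h8 : ‖x‖ ^ (n - h.natDegree) < 1 := pow_lt_one₀ (norm_nonneg _) hx (by omega)
  have h9 : ‖x‖ ^ (n - h.natDegree) * (‖h.leadingCoeff‖
      * ‖(h.roots.map fun ρ => 1 - ρ * x).prod‖)
      ≤ ‖x‖ ^ (n - h.natDegree) * (‖h.leadingCoeff‖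
        * ‖(h.roots.map fun ρ => x - (starRingEnd ℂ) ρ).prod‖) := by
    gcongr
  have h10 : ‖x‖ ^ (n - h.natDegree) * (‖h.leadingCoeff‖
        * ‖(h.roots.map fun ρ => x - (starRingEnd ℂ) ρ).prod‖)
      < 1 * (‖h.leadingCoeff‖ * ‖(h.roots.map fun ρ => x - (starRingEnd ℂ) ρ).prod‖) :=
    mul_lt_mul_of_pos_right h8 (mul_pos h7 h6)
  linarith

/-- If `α + q` is zero-free in the closed disc then `p_α` is circle rooted. -/
lemma mem_S {n : ℕ} {q : ℂ[X]} (hn : q.natDegree < n) {α : ℝ} (hα : 0 < α)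
    (hq0 : q.coeff 0 = 0)
    (hfree : ∀ u : ℂ, ‖u‖ ≤ 1 → (C (α : ℂ) + q).eval u ≠ 0) : α ∈ S n (pq n q) := by
  refine ⟨hα, fun z hz => ?_⟩
  have hdeg : (C (α : ℂ) + q).natDegree < n := by
    rw [add_comm, natDegree_add_C]
    exact hn
  have hz0 : z ≠ 0 := by
    rintro rfl
    have h1 : (pAlpha n (pq n q) α).eval 0 = α := by
      unfold pAlpha
      have h2 : (pq n q).eval 0 = 0 := by
        rw [← coeff_zero_eq_eval_zero, coeff_pq hn (Nat.zero_le n), hq0, map_zero, add_zero]
        apply coeff_eq_zero_of_natDegree_lt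
        omega
      simp only [eval_add, eval_mul, eval_C, eval_pow, eval_X, eval_one, h2]
      rw [zero_pow (by omega)]
      ring
    rw [h1] at hz
    exact hα.ne' (by exact_mod_cast hz)
  rw [pAlpha_eval hn α hz0] at hz
  rcases lt_trichotomy ‖z‖ 1 with h | h | h
  · exact absurd hz (no_zero_inside hdeg hfree hz0 h)
  · exact h
  · exfalso
    -- reflect in the unit circle
    set x : ℂ := ((starRingEnd ℂ) z)⁻¹ with hx
    have hcz : (starRingEnd ℂ) z ≠ 0 := by simpa using hz0
    have hx0 : x ≠ 0 := inv_ne_zero hcz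
    have hxn : ‖x‖ < 1 := by
      rw [hx, norm_inv, RCLike.norm_conj]
      exact inv_lt_one_of_one_lt₀ h
    apply no_zero_inside hdeg hfree hx0 hxn
    have h1 : (starRingEnd ℂ) x = 1 / z := by
      rw [hx, map_inv₀, Complex.conj_conj, one_div]
    have h2 : 1 / x = (starRingEnd ℂ) z := by
      rw [hx, one_div, inv_inv]
    have h3 := congrArg (starRingEnd ℂ) hz
    rw [map_add, map_mul, map_pow, map_zero] at h3
    unfold barEval at h3 ⊢
    rw [Complex.conj_conj] at h3
    rw [h1, h2]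
    have h4 : x ^ n * (starRingEnd ℂ) z ^ n = 1 := by
      rw [← mul_pow, hx, inv_mul_cancel₀ hcz, one_pow]
    linear_combination (x ^ n) * h3 - ((starRingEnd ℂ) (eval (1 / z) (C (α : ℂ) + q))) * h4

/-- If `β + q` has a zero in the open disc then `p_β` is not circle rooted for large `n`. -/
lemma eventually_notMem_S {q : ℂ[X]} {β : ℝ} (hβ : 0 < β) (hq0 : q.coeff 0 = 0)
    {u : ℂ} (hu : ‖u‖ < 1) (hu0 : (C (β : ℂ) + q).eval u = 0) :
    ∀ᶠ n in atTop, β ∉ S n (pq n q) := by
  by_contra hcon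
  rw [Filter.not_eventually] at hcon
  simp only [not_not] at hcon
  have hcon2 := hcon.and_eventually (eventually_gt_atTop q.natDegree)
  obtain ⟨φ, hφ, hφ2⟩ := Filter.extraction_of_frequently_atTop hcon2
  set h : ℂ[X] := C (β : ℂ) + q with hh
  have hdeg : h.natDegree = q.natDegree := by rw [hh, add_comm, natDegree_add_C]
  obtain ⟨r, hr1, hr2⟩ := exists_between hu
  have hr0 : 0 < r := (norm_nonneg u).trans_lt hr1
  -- the functions
  set Fn : ℕ → ℂ → ℂ := fun i x => (pAlpha (φ i) (pq (φ i) q) β).eval x with hFn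
  set V : Set ℂ := ball 0 r with hV
  have hform : ∀ i, ∀ x : ℂ, Fn i x = (∑ k ∈ Finset.range (h.natDegree + 1),
      h.coeff k * x ^ (φ i - k)) + barEval h x := by
    intro i x
    have hn := (hφ2 i).2
    by_cases hx : x = 0
    · subst hx
      simp only [hFn]
      have h2 : (pq (φ i) q).eval 0 = 0 := by
        rw [← coeff_zero_eq_eval_zero, coeff_pq hn (Nat.zero_le _), hq0, map_zero, add_zero]
        apply coeff_eq_zero_of_natDegree_lt
        omega
      have h3 : ∑ k ∈ Finset.range (h.natDegree + 1), h.coeff k * (0 : ℂ) ^ (φ i - k) = 0 := by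
        refine Finset.sum_eq_zero fun k hk => ?_
        have := Finset.mem_range.mp hk
        rw [zero_pow (by omega), mul_zero]
      rw [h3, zero_add]
      unfold pAlpha barEval
      simp only [eval_add, eval_mul, eval_C, eval_pow, eval_X, eval_one, h2, map_zero]
      rw [zero_pow (by omega), hh]
      simp only [eval_add, eval_C, ← coeff_zero_eq_eval_zero, hq0, add_zero]
      simp
    · simp only [hFn]
      rw [pAlpha_eval hn β hx, ← hh, eval_eq_sum_range, Finset.mul_sum]
      congr 1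
      refine Finset.sum_congr rfl fun k hk => ?_
      have hk' := Finset.mem_range.mp hk
      have h3 : x ^ (φ i) = x ^ (φ i - k) * x ^ k := by rw [← pow_add]; congr 1; omega
      rw [h3, one_div, inv_pow]
      field_simp
  have hd : ∀ i, DifferentiableOn ℂ (Fn i) V := fun i =>
    (Polynomial.differentiable _).differentiableOn
  have hpt : ∀ z ∈ V, Tendsto (fun i => Fn i z) atTop (𝓝 (barEval h z)) := by
    intro z hz
    have hz1 : ‖z‖ < 1 := (mem_ball_zero_iff.mp hz).trans hr2
    simp only [hform]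
    have h1 : Tendsto (fun i => ∑ k ∈ Finset.range (h.natDegree + 1),
        h.coeff k * z ^ (φ i - k)) atTop (𝓝 (∑ k ∈ Finset.range (h.natDegree + 1), (0 : ℂ))) := by
      refine tendsto_finsetSum _ fun k _ => ?_
      have h2 : Tendsto (fun i => z ^ (φ i - k)) atTop (𝓝 0) :=
        (tendsto_pow_atTop_nhds_zero_of_norm_lt_one hz1).comp
          ((tendsto_sub_atTop_nat k).comp hφ.tendsto_atTop)
      simpa using h2.const_mul (h.coeff k)
    rw [Finset.sum_const_zero] at h1
    simpa using h1.add_const (barEval h z)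
  have hbar : Differentiable ℂ (barEval h) := by
    have : barEval h = fun x => ∑ k ∈ Finset.range (h.natDegree + 1),
      (starRingEnd ℂ) (h.coeff k) * x ^ k := funext (barEval_eq_sum h)
    rw [this]
    fun_prop
  set M : ℝ := (∑ k ∈ Finset.range (h.natDegree + 1), ‖h.coeff k‖)
    + ∑ k ∈ Finset.range (h.natDegree + 1), ‖h.coeff k‖ with hM
  have hb : ∀ i, ∀ z ∈ V, ‖Fn i z‖ ≤ M := by
    intro i z hz
    have hz1 : ‖z‖ ≤ 1 := ((mem_ball_zero_iff.mp hz).trans hr2).le
    rw [hform, barEval_eq_sum]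
    refine (norm_add_le _ _).trans (add_le_add ?_ ?_)
    · refine (norm_sum_le _ _).trans (Finset.sum_le_sum fun k _ => ?_)
      rw [norm_mul, norm_pow]
      exact mul_le_of_le_one_right (norm_nonneg _) (pow_le_one₀ (norm_nonneg _) hz1)
    · refine (norm_sum_le _ _).trans (Finset.sum_le_sum fun k _ => ?_)
      rw [norm_mul, norm_pow, RCLike.norm_conj]
      exact mul_le_of_le_one_right (norm_nonneg _) (pow_le_one₀ (norm_nonneg _) hz1)
  have hlim := Pool.Agent.Helper859.Br.C1.tlu_of_pointwise (l := atTop) isOpen_ball hd hb hpt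
  have hne : ∀ i, ∀ z ∈ V, Fn i z ≠ 0 := by
    intro i z hz h0
    have h1 := (hφ2 i).1.2 z h0
    have h2 : ‖z‖ < 1 := (mem_ball_zero_iff.mp hz).trans hr2
    linarith
  have hcu : (starRingEnd ℂ) u ∈ V := by
    rw [hV, mem_ball_zero_iff, RCLike.norm_conj]
    exact hr1
  have hcu0 : barEval h ((starRingEnd ℂ) u) = 0 := by
    unfold barEval
    rw [Complex.conj_conj, hu0, map_zero]
  have hloc := Pool.Agent.Helper859.Br.C1.hurwitz isOpen_ball hd hlim hne hcu hcu0
  -- then `barEval h` vanishes identically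
  have han : AnalyticOnNhd ℂ (barEval h) Set.univ := fun z _ =>
    hbar.analyticAt z
  have hzero := han.eqOn_zero_of_preconnected_of_eventuallyEq_zero isPreconnected_univ
    (Set.mem_univ ((starRingEnd ℂ) u)) hloc
  have h1 := hzero (Set.mem_univ (0 : ℂ))
  unfold barEval at h1
  rw [map_zero, hh, eval_add, eval_C, ← coeff_zero_eq_eval_zero, hq0, add_zero] at h1
  simp at h1
  exact hβ.ne' h1

/-! ### the auxiliary holomorphic function -/

/-- `α_k = e^{(2k+1)π} - 1` -/
noncomputable def al (k : ℕ) : ℝ := Real.exp ((2 * k + 1) * Real.pi) - 1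

/-- `β_k = e^{2kπ} - 1` -/
noncomputable def be (k : ℕ) : ℝ := Real.exp (2 * k * Real.pi) - 1

/-- the Möbius map -/
noncomputable def wf (r : ℝ) (u : ℂ) : ℂ := (1 + r * u) / (1 - r * u)

/-- the auxiliary function -/
noncomputable def ff (r : ℝ) (u : ℂ) : ℂ :=
  Complex.exp (((1 + Complex.I) / 2) * Complex.log (wf r u)) - 1

lemma wf_re {r : ℝ} {u : ℂ} (hu : ‖(r : ℂ) * u‖ < 1) : 0 < (wf r u).re := by
  set v : ℂ := (r : ℂ) * u with hv
  have h1 : Complex.normSq v < 1 := by
    rw [Complex.normSq_eq_norm_sq]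
    nlinarith [norm_nonneg v]
  have h0 : (1 : ℂ) - v ≠ 0 := by
    intro h
    have : v = 1 := by linear_combination -h
    rw [this] at hu
    simp at hu
  have h2 : 0 < Complex.normSq (1 - v) := Complex.normSq_pos.mpr h0
  have h3 : (wf r u).re = (1 - Complex.normSq v) / Complex.normSq (1 - v) := by
    unfold wf
    rw [← hv, Complex.div_re]
    field_simp
    simp only [Complex.add_re, Complex.sub_re, Complex.one_re, Complex.add_im, Complex.sub_im,
      Complex.one_im, Complex.normSq_apply]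
    ring
  rw [h3]
  exact div_pos (by linarith) h2

lemma ff_diff {r : ℝ} : DifferentiableOn ℂ (ff r) {u : ℂ | ‖(r : ℂ) * u‖ < 1} := by
  intro u hu
  have hu' : ‖(r : ℂ) * u‖ < 1 := hu
  have h0 : (1 : ℂ) - r * u ≠ 0 := by
    intro h
    have : (r : ℂ) * u = 1 := by linear_combination -h
    rw [this] at hu'
    simp at hu'
  have h1 : wf r u ∈ Complex.slitPlane := Or.inl (wf_re hu')
  have h2 : DifferentiableAt ℂ (wf r) u := by
    unfold wf
    exact DifferentiableAt.div (by fun_prop) (by fun_prop) h0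
  have h3 : DifferentiableAt ℂ (fun u => Complex.log (wf r u)) u := h2.clog h1
  have h4 : DifferentiableAt ℂ (ff r) u := by
    unfold ff
    exact (DifferentiableAt.cexp (h3.const_mul _)).sub_const _
  exact h4.differentiableWithinAt

lemma ff_zero (r : ℝ) : ff r 0 = 0 := by
  unfold ff wf
  simp

lemma ff_ne_al {r : ℝ} {u : ℂ} (hu : ‖(r : ℂ) * u‖ < 1) (k : ℕ) : ff r u ≠ (al k : ℂ) := by
  intro h
  have hw := wf_re hu
  set w := wf r u with hwd
  have hw0 : w ≠ 0 := by
    intro h0
    rw [h0] at hw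
    simp at hw
  have h1 : Complex.exp (((1 + Complex.I) / 2) * Complex.log w)
      = Complex.exp (((2 * k + 1) * Real.pi : ℝ) : ℂ) := by
    have h2 : ff r u = Complex.exp (((1 + Complex.I) / 2) * Complex.log w) - 1 := rfl
    have h3 : ((al k : ℝ) : ℂ) = Complex.exp (((2 * k + 1) * Real.pi : ℝ) : ℂ) - 1 := by
      unfold al
      push_cast
      rfl
    rw [h2, h3] at h
    linear_combination h
  obtain ⟨m, hm⟩ := Complex.exp_eq_exp_iff_exists_int.mp h1
  set ρ : ℝ := (Complex.log w).re with hρ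
  set θ : ℝ := (Complex.log w).im with hθ
  have hθ1 : |θ| < Real.pi / 2 := by
    rw [hθ, Complex.log_im]
    exact Complex.abs_arg_lt_pi_div_two_iff.mpr (Or.inl hw)
  have hre := congrArg Complex.re hm
  have him := congrArg Complex.im hm
  have e1 : (((1 + Complex.I) / 2) * Complex.log w).re = (ρ - θ) / 2 := by
    have : ((1 : ℂ) + Complex.I) / 2 = ⟨1 / 2, 1 / 2⟩ := by
      apply Complex.ext <;> simp
    rw [this, Complex.mul_re]
    simp only [← hρ, ← hθ]
    ring
  have e2 : (((1 + Complex.I) / 2) * Complex.log w).im = (ρ + θ) / 2 := by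
    have : ((1 : ℂ) + Complex.I) / 2 = ⟨1 / 2, 1 / 2⟩ := by
      apply Complex.ext <;> simp
    rw [this, Complex.mul_im]
    simp only [← hρ, ← hθ]
    ring
  rw [e1] at hre
  rw [e2] at him
  have e3 : ((((2 * k + 1) * Real.pi : ℝ) : ℂ) + (m : ℂ) * (2 * Real.pi * Complex.I)).re
      = (2 * k + 1) * Real.pi := by
    simp
  have e4 : ((((2 * k + 1) * Real.pi : ℝ) : ℂ) + (m : ℂ) * (2 * Real.pi * Complex.I)).im
      = m * (2 * Real.pi) := by
    simp
  rw [e3] at hre
  rw [e4] at him
  -- θ = (2m - 2k - 1) π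
  have h5 : θ = (2 * ((m : ℝ) - k) - 1) * Real.pi := by linarith
  have hpi := Real.pi_pos
  have h6 := abs_lt.mp hθ1
  rw [h5] at h6
  obtain ⟨h7, h8⟩ := h6
  have h9 : -(1 / 2 : ℝ) < 2 * ((m : ℝ) - k) - 1 := by
    by_contra hcon
    push Not at hcon
    nlinarith
  have h10 : 2 * ((m : ℝ) - k) - 1 < (1 / 2 : ℝ) := by
    by_contra hcon
    push Not at hcon
    nlinarith
  have h11 : (-1 : ℤ) < 4 * (m - k) - 2 := by
    have : (-1 : ℝ) < 4 * ((m : ℝ) - k) - 2 := by linarith
    exact_mod_cast this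
  have h12 : 4 * (m - k) - 2 < (1 : ℤ) := by
    have : 4 * ((m : ℝ) - k) - 2 < (1 : ℝ) := by linarith
    exact_mod_cast this
  omega

/-- `t_k` -/
noncomputable def tk (k : ℕ) : ℝ :=
  (Real.exp (4 * k * Real.pi) - 1) / (Real.exp (4 * k * Real.pi) + 1)

lemma tk_nonneg (k : ℕ) : 0 ≤ tk k := by
  unfold tk
  have hpi := Real.pi_pos
  have h1 : 1 ≤ Real.exp (4 * k * Real.pi) := Real.one_le_exp (by positivity)
  exact div_nonneg (by linarith) (by linarith)

lemma tk_lt_one (k : ℕ) : tk k < 1 := by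
  unfold tk
  have h1 : 0 < Real.exp (4 * k * Real.pi) := Real.exp_pos _
  rw [div_lt_one (by linarith)]
  linarith

lemma tk_mono {j k : ℕ} (h : j ≤ k) : tk j ≤ tk k := by
  have hpi := Real.pi_pos
  have h1 : Real.exp (4 * j * Real.pi) ≤ Real.exp (4 * k * Real.pi) := by
    apply Real.exp_le_exp.mpr
    have : (j : ℝ) ≤ k := by exact_mod_cast h
    nlinarith
  have h2 : 0 < Real.exp (4 * j * Real.pi) := Real.exp_pos _
  unfold tk
  rw [div_le_div_iff₀ (by linarith) (by linarith)]
  nlinarith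

lemma ff_tk {r : ℝ} (hr : 0 < r) (k : ℕ) : ff r ((tk k / r : ℝ) : ℂ) = (be k : ℂ) := by
  have h1 : wf r ((tk k / r : ℝ) : ℂ) = ((Real.exp (4 * k * Real.pi) : ℝ) : ℂ) := by
    unfold wf
    have h2 : (r : ℂ) * ((tk k / r : ℝ) : ℂ) = ((tk k : ℝ) : ℂ) := by
      rw [← Complex.ofReal_mul]
      congr 1
      field_simp
    rw [h2]
    have h3 : (1 + (tk k)) / (1 - tk k) = Real.exp (4 * k * Real.pi) := by
      have h4 : 1 - tk k ≠ 0 := by
        have := tk_lt_one k
        linarith
      have h5 : Real.exp (4 * k * Real.pi) + 1 ≠ 0 := by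
        have := Real.exp_pos (4 * k * Real.pi)
        linarith
      rw [div_eq_iff h4]
      unfold tk
      field_simp
      ring
    rw [← h3]
    push_cast
    rfl
  unfold ff
  rw [h1, ← Complex.ofReal_log (Real.exp_pos _).le, Real.log_exp]
  have h2 : ((1 + Complex.I) / 2) * ((4 * k * Real.pi : ℝ) : ℂ)
      = ((2 * k * Real.pi : ℝ) : ℂ) + (k : ℂ) * (2 * Real.pi * Complex.I) := by
    push_cast
    ring
  rw [h2, Complex.exp_add]
  have h3 : Complex.exp ((k : ℂ) * (2 * Real.pi * Complex.I)) = 1 :=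
    Complex.exp_eq_one_iff.mpr ⟨k, by push_cast; ring⟩
  rw [h3]
  unfold be
  push_cast
  ring

lemma al_lt_be (k : ℕ) : al k < be (k + 1) := by
  unfold al be
  have hpi := Real.pi_pos
  have : Real.exp ((2 * k + 1) * Real.pi) < Real.exp (2 * ((k + 1 : ℕ) : ℝ) * Real.pi) := by
    apply Real.exp_lt_exp.mpr
    push_cast
    nlinarith
  linarith

lemma be_le_al {j k : ℕ} (h : j ≤ k) : be j ≤ al k := by
  unfold al be
  have hpi := Real.pi_pos
  have : Real.exp (2 * j * Real.pi) ≤ Real.exp ((2 * k + 1) * Real.pi) := by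
    apply Real.exp_le_exp.mpr
    have : (j : ℝ) ≤ k := by exact_mod_cast h
    nlinarith
  linarith

lemma al_pos (k : ℕ) : 0 < al k := by
  unfold al
  have hpi := Real.pi_pos
  have : 1 < Real.exp ((2 * k + 1) * Real.pi) := Real.one_lt_exp_iff.mpr (by positivity)
  linarith

lemma be_pos {k : ℕ} (hk : 1 ≤ k) : 0 < be k := by
  unfold be
  have hpi := Real.pi_pos
  have hk' : (0 : ℝ) < k := by exact_mod_cast hk
  have : 1 < Real.exp (2 * k * Real.pi) := Real.one_lt_exp_iff.mpr (by positivity)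
  linarith

/-! ### polynomial approximation -/

/-- There are polynomials vanishing at `0` converging uniformly on the closed unit disc to `f`. -/
lemma exists_poly {f : ℂ → ℂ} {R : ℝ} (hR : 1 < R) (hf : DifferentiableOn ℂ f (closedBall 0 R))
    (hf0 : f 0 = 0) : ∃ Q : ℕ → ℂ[X], (∀ m, (Q m).coeff 0 = 0) ∧
      TendstoUniformlyOn (fun m u => (Q m).eval u) f atTop (closedBall 0 1) := by
  lift R to NNReal using by linarith
  have hR0 : 0 < R := by
    have : (0 : ℝ) < R := by linarith
    exact_mod_cast this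
  have hps := hf.hasFPowerSeriesOnBall hR0
  set P := cauchyPowerSeries f 0 R with hP
  have h1R : (1 : ℝ) < R := hR
  obtain ⟨r', hr1, hr2⟩ := exists_between h1R
  lift r' to NNReal using by linarith
  have hr2' : ((r' : NNReal) : ENNReal) < ((R : NNReal) : ENNReal) := by
    exact_mod_cast hr2
  have hun := hps.tendstoUniformlyOn hr2'
  refine ⟨fun m => ∑ k ∈ Finset.range (m + 1), C (P.coeff k) * X ^ k, ?_, ?_⟩
  · intro m
    rw [finsetSum_coeff]
    have h0 : P.coeff 0 = 0 := by
      have h2 := hps.coeff_zero (fun _ => 0)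
      rw [hf0] at h2
      rw [← h2]
      unfold FormalMultilinearSeries.coeff
      congr 1
      ext i
      exact i.elim0
    refine Finset.sum_eq_zero fun k _ => ?_
    rw [coeff_C_mul, coeff_X_pow]
    by_cases hk : k = 0
    · subst hk
      rw [h0, zero_mul]
    · rw [if_neg (Ne.symm hk), mul_zero]
  · have h2 : TendstoUniformlyOn (fun (n : ℕ) (y : ℂ) => P.partialSum n y) (fun y => f (0 + y)) atTop
        (closedBall 0 1) := hun.mono (closedBall_subset_ball hr1)
    have h3 : TendstoUniformlyOn (fun (n : ℕ) (y : ℂ) => P.partialSum (n + 1) y)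
        (fun y => f (0 + y)) atTop (closedBall 0 1) := by
      intro u hu
      exact (tendsto_add_atTop_nat 1).eventually (h2 u hu)
    simp only [zero_add] at h3
    refine h3.congr (Eventually.of_forall fun m u _ => ?_)
    simp only [eval_finsetSum, eval_mul, eval_C, eval_pow, eval_X]
    unfold FormalMultilinearSeries.partialSum
    refine Finset.sum_congr rfl fun k _ => ?_
    rw [FormalMultilinearSeries.apply_eq_pow_smul_coeff, smul_eq_mul, mul_comm]

/-- the polynomial for the construction -/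
lemma exists_q (N : ℕ) : ∃ q : ℂ[X], q ≠ 0 ∧ q.coeff 0 = 0 ∧
    (∀ k ≤ N, ∀ u : ℂ, ‖u‖ ≤ 1 → (C (al k : ℂ) + q).eval u ≠ 0) ∧
    (∀ k, 1 ≤ k → k ≤ N → ∃ u : ℂ, ‖u‖ < 1 ∧ (C (be k : ℂ) + q).eval u = 0) ∧
    (∀ k, 1 ≤ k → k ≤ N + 1 → ∃ u : ℂ, ‖u‖ < 1 ∧ (C (be k : ℂ) + q).eval u = 0) := by
  obtain ⟨r, hr1, hr2⟩ := exists_between (tk_lt_one (N + 1))
  have hr0 : 0 < r := (tk_nonneg _).trans_lt hr1
  obtain ⟨R, hR1, hR2⟩ := exists_between ((one_lt_div hr0).mpr hr2)
  have hdom : closedBall (0 : ℂ) R ⊆ {u : ℂ | ‖(r : ℂ) * u‖ < 1} := by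
    intro u hu
    rw [mem_closedBall_zero_iff] at hu
    rw [Set.mem_setOf_eq, norm_mul, Complex.norm_real, Real.norm_eq_abs, abs_of_pos hr0]
    calc r * ‖u‖ ≤ r * R := by gcongr
      _ < r * (1 / r) := by gcongr
      _ = 1 := by field_simp
  obtain ⟨Q, hQ0, hQ⟩ := exists_poly hR1 (ff_diff.mono hdom) (ff_zero r)
  have hdisc : ∀ u : ℂ, ‖u‖ ≤ 1 → ‖(r : ℂ) * u‖ < 1 := fun u hu =>
    hdom (mem_closedBall_zero_iff.mpr (hu.trans hR1.le))
  -- eventually avoids al k
  have hav : ∀ k, ∀ᶠ m in atTop, ∀ u : ℂ, ‖u‖ ≤ 1 → (Q m).eval u ≠ (al k : ℂ) := by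
    intro k
    have hcont : ContinuousOn (fun u => ‖ff r u - (al k : ℂ)‖) (closedBall (0 : ℂ) 1) := by
      have h1 : ContinuousOn (ff r) (closedBall (0 : ℂ) 1) :=
        ff_diff.continuousOn.mono fun u hu => hdisc u (mem_closedBall_zero_iff.mp hu)
      exact (h1.sub continuousOn_const).norm
    obtain ⟨u0, hu0, hmin⟩ := (isCompact_closedBall (0 : ℂ) 1).exists_isMinOn
      ⟨0, mem_closedBall_self zero_le_one⟩ hcont
    have hpos : 0 < ‖ff r u0 - (al k : ℂ)‖ := norm_pos_iff.mpr
      (sub_ne_zero.mpr (ff_ne_al (hdisc u0 (mem_closedBall_zero_iff.mp hu0)) k))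
    filter_upwards [Metric.tendstoUniformlyOn_iff.mp hQ _ hpos] with m hm u hu heq
    have h1 := hm u (mem_closedBall_zero_iff.mpr hu)
    rw [heq, dist_eq_norm] at h1
    have h2 := hmin (mem_closedBall_zero_iff.mpr hu)
    simp only [Set.mem_setOf_eq] at h2
    linarith
  have hhit : ∀ k, 1 ≤ k → k ≤ N + 1 → ∀ᶠ m in atTop, ∃ u : ℂ, ‖u‖ < 1 ∧
      (Q m).eval u = (be k : ℂ) := by
    intro k hk1 hk2
    by_contra hcon
    rw [Filter.not_eventually] at hcon
    obtain ⟨φ, hφ, hφ2⟩ := Filter.extraction_of_frequently_atTop hcon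
    have hd : ∀ i : ℕ, DifferentiableOn ℂ (fun u => (Q (φ i)).eval u - (be k : ℂ)) (ball 0 1) :=
      fun i => ((Polynomial.differentiable _).sub_const _).differentiableOn
    have hlim : TendstoLocallyUniformlyOn (fun (i : ℕ) u => (Q (φ i)).eval u - (be k : ℂ))
        (fun u => ff r u - (be k : ℂ)) atTop (ball 0 1) := by
      have h1 : TendstoUniformlyOn (fun (i : ℕ) u => (Q (φ i)).eval u) (ff r) atTop
          (ball (0 : ℂ) 1) := by
        intro v hv
        exact hφ.tendsto_atTop.eventually ((hQ.mono ball_subset_closedBall) v hv)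
      have h2 : TendstoUniformlyOn (fun (i : ℕ) u => (Q (φ i)).eval u - (be k : ℂ))
        (fun u => ff r u - (be k : ℂ)) atTop (ball 0 1) := by
        rw [Metric.tendstoUniformlyOn_iff] at h1 ⊢
        intro ε hε
        filter_upwards [h1 ε hε] with i hi u hu
        have := hi u hu
        rwa [dist_sub_right]
      exact h2.tendstoLocallyUniformlyOn
    have hne : ∀ i : ℕ, ∀ z ∈ ball (0 : ℂ) 1, (Q (φ i)).eval z - (be k : ℂ) ≠ 0 := by
      intro i z hz h0
      exact hφ2 i ⟨z, mem_ball_zero_iff.mp hz, sub_eq_zero.mp h0⟩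
    have hu1 : ((tk k / r : ℝ) : ℂ) ∈ ball (0 : ℂ) 1 := by
      rw [mem_ball_zero_iff, Complex.norm_real, Real.norm_eq_abs,
        abs_of_nonneg (div_nonneg (tk_nonneg k) hr0.le), div_lt_one hr0]
      exact (tk_mono hk2).trans_lt hr1
    have hu2 : ff r ((tk k / r : ℝ) : ℂ) - (be k : ℂ) = 0 := by
      rw [ff_tk hr0, sub_self]
    have hloc := Pool.Agent.Helper859.Br.C1.hurwitz isOpen_ball hd hlim hne hu1 hu2
    have hdf : DifferentiableOn ℂ (fun u => ff r u - (be k : ℂ)) (ball (0 : ℂ) 1) :=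
      (ff_diff.mono fun u hu => hdisc u (mem_ball_zero_iff.mp hu).le).sub_const _
    have han : AnalyticOnNhd ℂ (fun u => ff r u - (be k : ℂ)) (ball (0 : ℂ) 1) :=
      hdf.analyticOnNhd isOpen_ball
    have hzero := han.eqOn_zero_of_preconnected_of_eventuallyEq_zero
      (convex_ball (0 : ℂ) 1).isPreconnected hu1 hloc
    have h1 := hzero (mem_ball_self zero_lt_one)
    simp only [ff_zero, Pi.zero_apply, zero_sub, neg_eq_zero] at h1
    exact (be_pos hk1).ne' (by exact_mod_cast h1)
  have hev1 : ∀ᶠ m in atTop, ∀ k ∈ Finset.range (N + 1), ∀ u : ℂ, ‖u‖ ≤ 1 →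
      (Q m).eval u ≠ (al k : ℂ) := by
    rw [Filter.eventually_all_finset]
    exact fun k _ => hav k
  have hev2 : ∀ᶠ m in atTop, ∀ k ∈ Finset.Icc 1 (N + 1), ∃ u : ℂ, ‖u‖ < 1 ∧
      (Q m).eval u = (be k : ℂ) := by
    rw [Filter.eventually_all_finset]
    intro k hk
    rw [Finset.mem_Icc] at hk
    exact hhit k hk.1 hk.2
  obtain ⟨m, hm1, hm2⟩ := (hev1.and hev2).exists
  have hB : ∀ k, 1 ≤ k → k ≤ N + 1 → ∃ u : ℂ, ‖u‖ < 1 ∧ (C (be k : ℂ) + -Q m).eval u = 0 := by
    intro k hk1 hk2
    obtain ⟨u, hu1, hu2⟩ := hm2 k (Finset.mem_Icc.mpr ⟨hk1, hk2⟩)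
    refine ⟨u, hu1, ?_⟩
    rw [eval_add, eval_C, eval_neg, hu2]
    ring
  refine ⟨-Q m, ?_, ?_, ?_, ?_, ?_⟩
  · intro h
    obtain ⟨u, _, hu⟩ := hB 1 le_rfl (by omega)
    rw [h] at hu
    simp only [add_zero, eval_C] at hu
    exact (be_pos le_rfl).ne' (by exact_mod_cast hu)
  · rw [coeff_neg, hQ0, neg_zero]
  · intro k hk u hu h0
    rw [eval_add, eval_C, eval_neg] at h0
    exact hm1 k (Finset.mem_range.mpr (by omega)) u hu (by linear_combination -h0)
  · exact fun k hk1 hk2 => hB k hk1 (by omega)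
  · exact hB

/-- Points separated by a gap lie in different components. -/
lemma component_ne {s : Set ℝ} {a b c : ℝ} (ha : a ∈ s) (hc : c ∈ s) (hb : b ∉ s) (hab : a ≤ b)
    (hbc : b ≤ c) : (ConnectedComponents.mk (⟨a, ha⟩ : s)) ≠ ConnectedComponents.mk ⟨c, hc⟩ := by
  intro h
  rw [ConnectedComponents.coe_eq_coe] at h
  have h1 : IsPreconnected (connectedComponent (⟨a, ha⟩ : s)) := isPreconnected_connectedComponent
  have h2 : IsPreconnected ((fun x : s => (x : ℝ)) '' connectedComponent (⟨a, ha⟩ : s)) :=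
    h1.image _ continuous_subtype_val.continuousOn
  have h3 : a ∈ (fun x : s => (x : ℝ)) '' connectedComponent (⟨a, ha⟩ : s) :=
    ⟨⟨a, ha⟩, mem_connectedComponent, rfl⟩
  have h4 : c ∈ (fun x : s => (x : ℝ)) '' connectedComponent (⟨a, ha⟩ : s) := by
    refine ⟨⟨c, hc⟩, ?_, rfl⟩
    rw [h]
    exact mem_connectedComponent
  obtain ⟨x, _, hx⟩ := h2.ordConnected.out h3 h4 ⟨hab, hbc⟩
  exact hb (hx ▸ x.2)

/-- The sets `S(p)` have arbitrarily many connected components. -/
theorem result : ∀ N : ℕ, ∃ (n : ℕ) (p : ℂ[X]), TrimSelfInversive n p ∧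
    (N : ℕ∞) ≤ ENat.card (ConnectedComponents (S n p)) := by
  intro N
  obtain ⟨q, hq, hq0, hA, _, hB⟩ := exists_q N
  have hev : ∀ᶠ n in atTop, ∀ k ∈ Finset.Icc 1 (N + 1), be k ∉ S n (pq n q) := by
    rw [Filter.eventually_all_finset]
    intro k hk
    rw [Finset.mem_Icc] at hk
    obtain ⟨u, hu, hu0⟩ := hB k hk.1 hk.2
    exact eventually_notMem_S (be_pos hk.1) hq0 hu hu0
  obtain ⟨n, hn1, hn2⟩ := (hev.and (eventually_gt_atTop (2 * q.natDegree))).exists
  have hmem : ∀ k ≤ N, al k ∈ S n (pq n q) := fun k hk =>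
    mem_S (by omega) (al_pos k) hq0 (hA k hk)
  refine ⟨n, pq n q, trim_pq hn2 hq hq0, ?_⟩
  set g : Fin N → ConnectedComponents (S n (pq n q)) := fun k =>
    ConnectedComponents.mk ⟨al k, hmem k k.2.le⟩ with hg
  have hlt : ∀ j k : Fin N, j < k → g j ≠ g k := by
    intro j k hjk
    have hjk' : (j : ℕ) < k := hjk
    exact component_ne (hmem j j.2.le) (hmem k k.2.le)
      (hn1 (j + 1) (Finset.mem_Icc.mpr ⟨by omega, by omega⟩)) (al_lt_be j).le (be_le_al hjk')
  have hinj : Function.Injective g := by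
    intro j k hjk
    by_contra hne
    rcases lt_or_gt_of_ne hne with h | h
    · exact hlt j k h hjk
    · exact hlt k j h hjk.symm
  have h1 := ENat.card_le_card_of_injective hinj
  simpa using h1

end Pool.Agent.Results.MP_9de7c4_an.ManyComponents
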